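import Mathlib

set_option autoImplicit false

namespace Pool.Agent.Results.MP_9098dd_gt.DensePowers

open Set Filter Topology Cardinal Ordinal

/-- families of open sets with dense union -/
def DD (X : Type) [TopologicalSpace X] : Set (Set (Set X)) :=
  {U | (∀ V ∈ U, IsOpen V) ∧ Dense (⋃₀ U)}

/-- the class D_Omega -/
def DO (X : Type) [TopologicalSpace X] : Set (Set (Set X)) :=
  {U | U ∈ DD X ∧ (∀ V ∈ U, ¬ (Set.univ ⊆ closure V)) ∧
    ∀ F : Set (Set X), F.Finite → (∀ W ∈ F, IsOpen W ∧ W.Nonempty) →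
      ∃ V ∈ U, ∀ W ∈ F, (V ∩ W).Nonempty}

/-- the selection principle S_1(A,B) -/
def S1 {X : Type} (A B : Set (Set (Set X))) : Prop :=
  ∀ U : ℕ → Set (Set X), (∀ n, U n ∈ A) → ∃ V : ℕ → Set X, (∀ n, V n ∈ U n) ∧ range V ∈ B

/-- the selection principle S_fin(A,B) -/
def Sfin {X : Type} (A B : Set (Set (Set X))) : Prop :=
  ∀ U : ℕ → Set (Set X), (∀ n, U n ∈ A) →
    ∃ F : ℕ → Set (Set X), (∀ n, (F n).Finite ∧ F n ⊆ U n) ∧ ⋃ n, F n ∈ B

/-- countable chain condition for a space -/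
def CCC (X : Type) [TopologicalSpace X] : Prop :=
  ∀ S : Set (Set X), (∀ V ∈ S, IsOpen V ∧ V.Nonempty) → S.PairwiseDisjoint id → S.Countable

/-- Martin's Axiom for aleph_1 many dense sets -/
def MA1 : Prop :=
  ∀ (P : Type) [PartialOrder P], Nonempty P →
    (∀ A : Set P, A.Pairwise (fun p q => ¬ ∃ r, r ≤ p ∧ r ≤ q) → A.Countable) →
    ∀ 𝒟 : Set (Set P), #𝒟 ≤ ℵ₁ → (∀ D ∈ 𝒟, ∀ p, ∃ q ∈ D, q ≤ p) →
      ∃ G : Set P, (∀ p ∈ G, ∀ q, p ≤ q → q ∈ G) ∧
        (∀ p ∈ G, ∀ q ∈ G, ∃ r ∈ G, r ≤ p ∧ r ≤ q) ∧ ∀ D ∈ 𝒟, (G ∩ D).Nonempty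

/-- `T` with height function `ht` is a free (full) Suslin tree: a well-pruned tree of height
omega_1 without uncountable chains or antichains, all of whose derived trees have no
uncountable antichain. -/
structure FreeSuslin (T : Type) [PartialOrder T] (ht : T → Ordinal.{0}) : Prop where
  ne : Nonempty T
  mono : StrictMono ht
  lt : ∀ t, ht t < ω₁
  tree : ∀ t : T, IsChain (· ≤ ·) (Iic t)
  down : ∀ t β, β ≤ ht t → ∃ s, s ≤ t ∧ ht s = β
  up : ∀ t β, ht t ≤ β → β < ω₁ → ∃ s, t ≤ s ∧ ht s = β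
  chain : ∀ C : Set T, IsChain (· ≤ ·) C → C.Countable
  anti : ∀ A : Set T, IsAntichain (· ≤ ·) A → A.Countable
  free : ∀ (r : ℕ) (u : Fin r → T), Function.Injective u → (∀ i j, ht (u i) = ht (u j)) →
    ∀ A : Set (Fin r → T), (∀ v ∈ A, u ≤ v ∧ ∀ i j, ht (v i) = ht (v j)) →
      IsAntichain (· ≤ ·) A → A.Countable

def SS (κ : ℕ∞) {X : Type} (A B : Set (Set (Set X))) : Prop :=
  ∀ U : ℕ → Set (Set X), (∀ n, U n ∈ A) →
    ∃ F : ℕ → Set (Set X), (∀ n, (F n).encard < κ ∧ F n ⊆ U n) ∧ ⋃ n, F n ∈ B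

lemma sfin_iff {X : Type} (A B : Set (Set (Set X))) : Sfin A B ↔ SS ⊤ A B := by
  simp only [Sfin, SS, encard_lt_top_iff]

lemma DO_of {X : Type} [TopologicalSpace X] (U : Set (Set X)) (h1 : ∀ V ∈ U, IsOpen V)
    (h2 : ∀ V ∈ U, ¬ (Set.univ ⊆ closure V))
    (h3 : ∀ F : Set (Set X), F.Finite → (∀ W ∈ F, IsOpen W ∧ W.Nonempty) →
      ∃ V ∈ U, ∀ W ∈ F, (V ∩ W).Nonempty) : U ∈ DO X := by
  refine ⟨⟨h1, dense_iff_inter_open.mpr fun W hW hne => ?_⟩, h2, h3⟩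
  obtain ⟨V, hV, h⟩ := h3 {W} (finite_singleton _) (by simpa using ⟨hW, hne⟩)
  obtain ⟨x, hx1, hx2⟩ := h W rfl
  exact ⟨x, hx2, V, hV, hx1⟩

lemma s1_iff {X : Type} [TopologicalSpace X] : S1 (DO X) (DO X) ↔ SS 2 (DO X) (DO X) := by
  constructor
  · intro h U hU
    obtain ⟨V, hV, h2⟩ := h U hU
    refine ⟨fun n => {V n}, fun n => ⟨by simp, by simpa using hV n⟩, ?_⟩
    rwa [iUnion_singleton_eq_range]
  · intro h U hU
    obtain ⟨F, hF, h2⟩ := h U hU
    have h3 : ∀ n, ∃ V ∈ U n, F n ⊆ {V} := by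
      intro n
      have h4 : (F n).encard ≤ 1 := by simpa using (hF n).1
      rcases encard_le_one_iff_eq.mp h4 with h5 | ⟨V, h5⟩
      · obtain ⟨V, hV, -⟩ := (hU n).2.2 ∅ finite_empty (by simp)
        exact ⟨V, hV, by simp [h5]⟩
      · exact ⟨V, (hF n).2 (by simp [h5]), by simp [h5]⟩
    choose V hV hFV using h3
    refine ⟨V, hV, DO_of _ ?_ ?_ ?_⟩
    · rintro _ ⟨n, rfl⟩; exact (hU n).1.1 _ (hV n)
    · rintro _ ⟨n, rfl⟩; exact (hU n).2.1 _ (hV n)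
    · intro G hG hG2
      obtain ⟨W, hW, h5⟩ := h2.2.2 G hG hG2
      obtain ⟨n, hn⟩ := mem_iUnion.mp hW
      exact ⟨W, ⟨n, (hFV n hn).symm⟩, h5⟩

lemma ccc_of_SS {κ : ℕ∞} {X : Type} [TopologicalSpace X] (h : SS κ (DO X) (DO X)) : CCC X := by
  intro S hS hd
  by_contra hc
  have hinf : S.Infinite := fun hf => hc hf.countable
  let U : Set (Set X) := {V | IsOpen V ∧ {s ∈ S | (V ∩ s).Nonempty}.Finite}
  have hU : U ∈ DO X := by
    apply DO_of _ (fun V hV => hV.1)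
    · intro V hV hcl
      apply hinf
      apply hV.2.subset
      intro s hs
      obtain ⟨x, hx⟩ := (hS s hs).2
      obtain ⟨y, hy1, hy2⟩ := mem_closure_iff.mp (hcl (mem_univ x)) s (hS s hs).1 hx
      exact ⟨hs, y, hy2, hy1⟩
    · intro F hF hF2
      have h1 : ∀ W ∈ F, ∃ W' ∈ U, W'.Nonempty ∧ W' ⊆ W := by
        intro W hW
        by_cases h2 : ∃ s ∈ S, (W ∩ s).Nonempty
        · obtain ⟨s, hs, hne⟩ := h2
          refine ⟨W ∩ s, ⟨(hF2 W hW).1.inter (hS s hs).1, (finite_singleton s).subset ?_⟩, hne,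
            inter_subset_left⟩
          rintro s' ⟨hs', x, hx1, hx2⟩
          by_contra hne'
          exact Set.disjoint_left.mp (hd hs' hs hne') hx2 hx1.2
        · refine ⟨W, ⟨(hF2 W hW).1, finite_empty.subset ?_⟩, (hF2 W hW).2, Subset.rfl⟩
          rintro s ⟨hs, hne⟩
          exact h2 ⟨s, hs, hne⟩
      choose! g hg1 hg2 hg3 using h1
      refine ⟨⋃ W ∈ F, g W, ⟨isOpen_biUnion (fun W hW => (hg1 W hW).1),
        (hF.biUnion (fun W hW => (hg1 W hW).2)).subset ?_⟩, fun W hW => ?_⟩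
      · rintro s ⟨hs, x, hx1, hx2⟩
        obtain ⟨W, hW, hxW⟩ := mem_iUnion₂.mp hx1
        exact mem_biUnion hW ⟨hs, x, hxW, hx2⟩
      · obtain ⟨x, hx⟩ := hg2 W hW
        exact ⟨x, mem_biUnion hW hx, hg3 W hW hx⟩
  obtain ⟨F, hF, h2⟩ := h (fun _ => U) (fun _ => hU)
  apply hc
  have h3 : (⋃ n, ⋃ V ∈ F n, {s ∈ S | (V ∩ s).Nonempty}).Countable :=
    countable_iUnion fun n => (encard_lt_top_iff.mp ((hF n).1.trans_le le_top)).countable.biUnion
        fun V hV => ((hF n).2 hV).2.countable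
  apply h3.mono
  intro s hs
  obtain ⟨x, hx1, V, hV, hx2⟩ := h2.1.2.inter_open_nonempty s (hS s hs).1 (hS s hs).2
  obtain ⟨n, hn⟩ := mem_iUnion.mp hV
  exact mem_iUnion.mpr ⟨n, mem_biUnion hn ⟨hs, x, hx2, hx1⟩⟩

lemma CCC.image {X Y : Type} [TopologicalSpace X] [TopologicalSpace Y] (h : CCC X) (f : X → Y)
    (hf : Continuous f) (hs : Function.Surjective f) : CCC Y := by
  intro S hS hd
  have hinj : Function.Injective (preimage f) := preimage_injective.mpr hs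
  have := h (preimage f '' S) (by
    rintro _ ⟨V, hV, rfl⟩
    exact ⟨(hS V hV).1.preimage hf, (hS V hV).2.preimage hs⟩) (by
    rintro _ ⟨V, hV, rfl⟩ _ ⟨W, hW, rfl⟩ hne
    exact (hd hV hW (fun h => hne (by rw [h]))).preimage f)
  exact countable_of_injective_of_countable_image hinj.injOn this

lemma ccc_dense {X : Type} [TopologicalSpace X] (hc : CCC X) {ι : Type} (I : Set ι)
    (W : ι → Set X) (hW : ∀ i ∈ I, IsOpen (W i)) :
    ∃ T ⊆ I, T.Countable ∧ ∀ i ∈ I, W i ⊆ closure (⋃ j ∈ T, W j) := by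
  obtain ⟨S, hS⟩ := zorn_subset {S : Set (Set X) | (∀ V ∈ S, (IsOpen V ∧ V.Nonempty) ∧
      ∃ i ∈ I, V ⊆ W i) ∧ S.PairwiseDisjoint id} (by
    intro c hc hch
    refine ⟨⋃₀ c, ⟨?_, (Set.pairwiseDisjoint_sUnion hch.directedOn).mpr fun t ht => (hc ht).2⟩,
      fun t ht => subset_sUnion_of_mem ht⟩
    rintro V ⟨t, ht, hV⟩
    exact (hc ht).1 V hV)
  have := (hc S (fun V hV => (hS.1.1 V hV).1) hS.1.2).to_subtype
  choose f f1 f2 using fun V : S => (hS.1.1 V.1 V.2).2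
  refine ⟨range f, by rintro _ ⟨V, rfl⟩; exact f1 V, countable_range f, fun i hi x hx => ?_⟩
  by_contra h
  have hdis : ∀ V ∈ S, Disjoint (W i \ closure (⋃ j ∈ range f, W j)) V := by
    intro V hV
    rw [Set.disjoint_left]
    intro y hy hyV
    exact hy.2 (subset_closure (mem_biUnion (mem_range_self ⟨V, hV⟩) (f2 ⟨V, hV⟩ hyV)))
  have hm := hS.2 (y := insert (W i \ closure (⋃ j ∈ range f, W j)) S) ⟨?_, ?_⟩
    (subset_insert _ _) (mem_insert _ _)
  · exact Set.disjoint_left.mp (hdis _ hm) ⟨hx, h⟩ ⟨hx, h⟩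
  · rintro V (rfl | hV)
    · exact ⟨⟨(hW i hi).sdiff isClosed_closure, x, hx, h⟩, i, hi, fun y hy => hy.1⟩
    · exact hS.1.1 V hV
  · exact hS.1.2.insert fun V hV _ => hdis V hV

def Lk {X : Type} [TopologicalSpace X] (A B : Set X) : Prop :=
  ∀ u v : Set X, IsOpen u → IsOpen v → u ⊆ A → v ⊆ B → u.Nonempty → v.Nonempty → (u ∩ v).Nonempty

def Good {X ι : Type} [TopologicalSpace X] (A : ι → Set X) : Prop :=
  (∀ i, IsOpen (A i) ∧ (A i).Nonempty) ∧ ∀ i j, i ≠ j → Disjoint (A i) (A j) ∨ Lk (A i) (A j)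

lemma good_sub {X ι : Type} [TopologicalSpace X] [Fintype ι] (B : ι → Set X)
    (hB : ∀ i, IsOpen (B i) ∧ (B i).Nonempty) : ∃ A, Good A ∧ ∀ i, A i ⊆ B i := by
  classical
  have key : ∀ s : Finset (ι × ι), ∃ A : ι → Set X, (∀ i, IsOpen (A i) ∧ (A i).Nonempty) ∧
      (∀ i, A i ⊆ B i) ∧ ∀ p ∈ s, p.1 ≠ p.2 → Disjoint (A p.1) (A p.2) ∨ Lk (A p.1) (A p.2) := by
    intro s
    induction s using Finset.induction_on with
    | empty => exact ⟨B, hB, fun _ => Subset.rfl, by simp⟩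
    | insert p s _ ih =>
      obtain ⟨A, h1, h2, h3⟩ := ih
      by_cases h : p.1 ≠ p.2 → Lk (A p.1) (A p.2)
      · refine ⟨A, h1, h2, fun q hq hne => ?_⟩
        rcases Finset.mem_insert.mp hq with rfl | hq
        · exact Or.inr (h hne)
        · exact h3 q hq hne
      · simp only [Lk, not_forall] at h
        obtain ⟨hne, u, v, hu, hv, huA, hvA, hu2, hv2, huv⟩ := h
        let A' : ι → Set X := fun i => if i = p.1 then u else if i = p.2 then v else A i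
        have hsub : ∀ i, A' i ⊆ A i := by
          intro i
          simp only [A']
          split_ifs with a b
          · rw [a]; exact huA
          · rw [b]; exact hvA
          · exact Subset.rfl
        refine ⟨A', fun i => ?_, fun i => (hsub i).trans (h2 i), fun q hq hne' => ?_⟩
        · simp only [A']
          split_ifs
          exacts [⟨hu, hu2⟩, ⟨hv, hv2⟩, h1 i]
        · rcases Finset.mem_insert.mp hq with rfl | hq
          · left
            simp only [A', if_true, if_neg (Ne.symm hne)]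
            exact Set.disjoint_iff_inter_eq_empty.mpr (not_nonempty_iff_eq_empty.mp huv)
          · rcases h3 q hq hne' with h4 | h4
            · exact Or.inl (h4.mono (hsub _) (hsub _))
            · exact Or.inr fun a b ha hb haA hbA =>
                h4 a b ha hb (haA.trans (hsub _)) (hbA.trans (hsub _))
  obtain ⟨A, h1, h2, h3⟩ := key Finset.univ
  exact ⟨A, ⟨h1, fun i j h => h3 (i, j) (Finset.mem_univ _) h⟩, h2⟩

lemma box_sub {X ι : Type} [TopologicalSpace X] [Fintype ι] (O : Set (ι → X)) (hO : IsOpen O)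
    (z : ι → X) (hz : z ∈ O) : ∃ G : ι → Set X, (∀ i, IsOpen (G i) ∧ z i ∈ G i) ∧
      Set.univ.pi G ⊆ O := by
  obtain ⟨G, h1, h2⟩ := isOpen_pi_iff'.mp hO z hz
  exact ⟨G, h1, h2⟩

lemma fin_inter {X ι : Type} [TopologicalSpace X] (S : Set X) (hS : IsOpen S) (hne : S.Nonempty)
    (h : Lk S S) (J : Finset ι) (G : ι → Set X)
    (hG : ∀ i ∈ J, IsOpen (G i) ∧ (G i).Nonempty ∧ G i ⊆ S) : (S ∩ ⋂ i ∈ J, G i).Nonempty := by
  classical
  induction J using Finset.induction_on with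
  | empty => simpa using hne
  | insert a J _ ih =>
    have h1 := ih (fun i hi => hG i (Finset.mem_insert_of_mem hi))
    have h2 := hG a (Finset.mem_insert_self _ _)
    obtain ⟨x, hx1, hx2⟩ := h _ _ (hS.inter (isOpen_biInter_finset
      (fun i hi => (hG i (Finset.mem_insert_of_mem hi)).1))) h2.1 inter_subset_left h2.2.2 h1 h2.2.1
    refine ⟨x, hx1.1, ?_⟩
    rw [Finset.set_biInter_insert]
    exact ⟨hx2, hx1.2⟩

lemma grid {X ι κ : Type} [TopologicalSpace X] [Fintype ι] (A : ι → Set X) (hA : Good A)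
    (W : ℕ → Set (Set (ι → X))) (hW : ∀ j, W j ∈ DD (ι → X)) (P : κ → Set X)
    (hP : ∀ a, IsOpen (P a) ∧ (P a).Nonempty) (T : Finset (ι → κ))
    (hT : ∀ t ∈ T, ∀ i, P (t i) ⊆ A i) :
    ∃ Q : κ → Set X, (∀ a, IsOpen (Q a) ∧ (Q a).Nonempty ∧ Q a ⊆ P a) ∧
      ∃ c : ℕ → Set (ι → X), (∀ j, c j ∈ W j) ∧
        ∀ t ∈ T, ∃ j < T.card, Set.univ.pi (fun i => Q (t i)) ⊆ c j := by
  classical
  induction T using Finset.induction_on with
  | empty =>
    have h1 : ∀ j, ∃ U, U ∈ W j := by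
      intro j
      choose z hz using fun i => (hA.1 i).2
      haveI : Nonempty (ι → X) := ⟨z⟩
      obtain ⟨y, U, hU, -⟩ := (hW j).2.nonempty
      exact ⟨U, hU⟩
    choose c hc using h1
    exact ⟨P, fun a => ⟨(hP a).1, (hP a).2, Subset.rfl⟩, c, hc, by simp⟩
  | insert t T ht ih =>
    obtain ⟨Q, hQ, c, hc, h⟩ := ih (fun s hs => hT s (Finset.mem_insert_of_mem hs))
    have hbo : IsOpen (Set.univ.pi (fun i => Q (t i))) :=
      isOpen_set_pi finite_univ (fun i _ => (hQ _).1)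
    obtain ⟨z, hz1, U, hU, hz2⟩ := (hW T.card).2.inter_open_nonempty _ hbo
      (univ_pi_nonempty_iff.mpr fun i => (hQ _).2.1)
    obtain ⟨G, hG, hGs⟩ := box_sub _ (hbo.inter ((hW T.card).1 U hU)) z ⟨hz1, hz2⟩
    have htA := hT t (Finset.mem_insert_self _ _)
    refine ⟨fun a => Q a ∩ ⋂ i ∈ Finset.univ.filter (fun i => t i = a), (G i ∩ Q a),
      fun a => ⟨(hQ a).1.inter (isOpen_biInter_finset fun i _ => (hG i).1.inter (hQ a).1), ?_,
        inter_subset_left.trans (hQ a).2.2⟩, Function.update c T.card U, fun j => ?_, ?_⟩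
    · by_cases h2 : ∃ i j, i ≠ j ∧ t i = a ∧ t j = a
      · obtain ⟨i, j, hij, hi, hj⟩ := h2
        have hi' : Q a ⊆ A i := (hQ a).2.2.trans (hi ▸ htA i)
        have hj' : Q a ⊆ A j := (hQ a).2.2.trans (hj ▸ htA j)
        apply fin_inter _ (hQ a).1 (hQ a).2.1
        · rcases hA.2 i j hij with h3 | h3
          · obtain ⟨x, hx⟩ := (hQ a).2.1
            exact absurd (hj' hx) (Set.disjoint_left.mp h3 (hi' hx))
          · exact fun u v hu hv h4 h5 => h3 u v hu hv (h4.trans hi') (h5.trans hj')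
        · intro l hl
          refine ⟨(hG l).1.inter (hQ a).1, ⟨z l, (hG l).2, ?_⟩, inter_subset_right⟩
          rw [← (Finset.mem_filter.mp hl).2]
          exact hz1 l (mem_univ _)
      · by_cases h3 : ∃ i, t i = a
        · obtain ⟨i, hi⟩ := h3
          have h4 : z i ∈ Q a := hi ▸ hz1 i (mem_univ _)
          refine ⟨z i, h4, mem_iInter₂.mpr fun l hl => ?_⟩
          have h5 : l = i := by
            by_contra h5
            exact h2 ⟨l, i, h5, (Finset.mem_filter.mp hl).2, hi⟩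
          rw [h5]
          exact ⟨(hG i).2, h4⟩
        · obtain ⟨x, hx⟩ := (hQ a).2.1
          exact ⟨x, hx, mem_iInter₂.mpr fun l hl => absurd ⟨l, (Finset.mem_filter.mp hl).2⟩ h3⟩
    · by_cases hj : j = T.card
      · rw [hj, Function.update_self]; exact hU
      · rw [Function.update_of_ne hj]; exact hc j
    · intro s hs
      rw [Finset.card_insert_of_notMem ht]
      rcases Finset.mem_insert.mp hs with rfl | hs
      · refine ⟨T.card, Nat.lt_succ_self _, fun y hy => ?_⟩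
        rw [Function.update_self]
        refine (hGs fun i _ => ?_).2
        exact (mem_iInter₂.mp (hy i (mem_univ _)).2 i (by simp)).1
      · obtain ⟨j, hj, h2⟩ := h s hs
        refine ⟨j, Nat.lt_succ_of_lt hj, fun y hy => ?_⟩
        rw [Function.update_of_ne hj.ne]
        exact h2 fun i _ => (hy i (mem_univ _)).1

lemma decide_sub {X ι : Type} [TopologicalSpace X] [Fintype ι] (A : ι → Set X)
    (hA : ∀ i, IsOpen (A i)) (F : Set X) (hF : IsOpen F ∧ F.Nonempty) :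
    ∃ P : Set X, (IsOpen P ∧ P.Nonempty) ∧ P ⊆ F ∧ ∀ i, P ⊆ A i ∨ Disjoint P (A i) := by
  classical
  have key : ∀ s : Finset ι, ∃ P : Set X, (IsOpen P ∧ P.Nonempty) ∧ P ⊆ F ∧
      ∀ i ∈ s, P ⊆ A i ∨ Disjoint P (A i) := by
    intro s
    induction s using Finset.induction_on with
    | empty => exact ⟨F, hF, Subset.rfl, by simp⟩
    | insert a s _ ih =>
      obtain ⟨P, h1, h2, h3⟩ := ih
      by_cases h : (P ∩ A a).Nonempty
      · refine ⟨P ∩ A a, ⟨h1.1.inter (hA a), h⟩, inter_subset_left.trans h2, fun i hi => ?_⟩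
        rcases Finset.mem_insert.mp hi with rfl | hi
        · exact Or.inl inter_subset_right
        · exact (h3 i hi).imp (inter_subset_left.trans) (fun h => h.mono_left inter_subset_left)
      · refine ⟨P, h1, h2, fun i hi => ?_⟩
        rcases Finset.mem_insert.mp hi with rfl | hi
        · exact Or.inr (Set.disjoint_iff_inter_eq_empty.mpr (not_nonempty_iff_eq_empty.mp h))
        · exact h3 i hi
  obtain ⟨P, h1, h2, h3⟩ := key Finset.univ
  exact ⟨P, h1, h2, fun i => h3 i (Finset.mem_univ _)⟩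

def VV {X ι : Type} [TopologicalSpace X] (A : ι → Set X) (W : ℕ → Set (Set (ι → X))) :
    Set (Set X) :=
  {V | IsOpen V ∧ ∃ c : ℕ → Set (ι → X), (∀ j, c j ∈ W j) ∧
    Set.univ.pi (fun i => V ∩ A i) ⊆ ⋃ j, c j}

lemma VV_meet {X ι : Type} [TopologicalSpace X] [Fintype ι] (A : ι → Set X) (hA : Good A)
    (W : ℕ → Set (Set (ι → X))) (hW : ∀ j, W j ∈ DD (ι → X)) (F : Set (Set X)) (hF : F.Finite)
    (hF2 : ∀ W ∈ F, IsOpen W ∧ W.Nonempty) : ∃ V ∈ VV A W, ∀ W ∈ F, (V ∩ W).Nonempty := by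
  classical
  haveI := hF.fintype
  choose P h1 h2 h3 using fun a : F => decide_sub A (fun i => (hA.1 i).1) a.1 (hF2 a.1 a.2)
  obtain ⟨Q, hQ, c, hc, h⟩ := grid A hA W hW P h1
    (Finset.univ.filter (fun t : ι → F => ∀ i, P (t i) ⊆ A i))
    (fun t ht => (Finset.mem_filter.mp ht).2)
  refine ⟨⋃ a, Q a, ⟨isOpen_iUnion fun a => (hQ a).1, c, hc, fun z hz => ?_⟩, fun V hV => ?_⟩
  · choose t ht using fun i => mem_iUnion.mp (hz i (mem_univ _)).1
    obtain ⟨j, -, hj⟩ := h t (Finset.mem_filter.mpr ⟨Finset.mem_univ _, fun i =>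
      (h3 (t i) i).resolve_right fun hd =>
        Set.disjoint_left.mp hd ((hQ _).2.2 (ht i)) (hz i (mem_univ _)).2⟩)
    exact mem_iUnion.mpr ⟨j, hj fun i _ => ht i⟩
  · obtain ⟨x, hx⟩ := (hQ ⟨V, hV⟩).2.1
    exact ⟨x, mem_iUnion.mpr ⟨_, hx⟩, h2 _ ((hQ _).2.2 hx)⟩

lemma box_sel {κ : ℕ∞} (hκ : 1 < κ) {X ι : Type} [TopologicalSpace X] [Fintype ι]
    (h : SS κ (DO X) (DO X)) (A : ι → Set X) (hA : Good A)
    (W : ℕ → ℕ → Set (Set (ι → X))) (hW : ∀ m j, W m j ∈ DD (ι → X)) :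
    ∃ F : ℕ → ℕ → Set (Set (ι → X)), (∀ m j, (F m j).encard < κ ∧ F m j ⊆ W m j) ∧
      Set.univ.pi A ⊆ closure (⋃₀ ⋃ m, ⋃ j, F m j) := by
  have key : ∃ E : ℕ → Set (Set X), (∀ m, (E m).encard < κ ∧ E m ⊆ VV A (W m)) ∧
      ∀ G : ι → Set X, (∀ i, IsOpen (G i) ∧ (G i).Nonempty) →
        ∃ m, ∃ V ∈ E m, ∀ i, (V ∩ G i).Nonempty := by
    classical
    by_cases hd : ∃ m, ∃ V ∈ VV A (W m), Set.univ ⊆ closure V
    · obtain ⟨m, V, hV, hcl⟩ := hd
      refine ⟨fun n => if n = m then {V} else ∅, fun n => ?_, fun G hG => ⟨m, V, by simp, fun i => ?_⟩⟩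
      · by_cases hn : n = m
        · subst hn; simpa using ⟨hκ, hV⟩
        · simpa [hn] using zero_lt_one.trans hκ
      · obtain ⟨x, hx⟩ := (hG i).2
        obtain ⟨y, hy1, hy2⟩ := mem_closure_iff.mp (hcl (mem_univ x)) _ (hG i).1 hx
        exact ⟨y, hy2, hy1⟩
    · obtain ⟨E, hE, h2⟩ := h (fun m => VV A (W m)) (fun m => DO_of _ (fun V hV => hV.1)
        (fun V hV hcl => hd ⟨m, V, hV, hcl⟩) (VV_meet A hA _ (hW m)))
      refine ⟨E, hE, fun G hG => ?_⟩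
      obtain ⟨V, hV, h3⟩ := h2.2.2 (range G) (finite_range G) (by rintro _ ⟨i, rfl⟩; exact hG i)
      obtain ⟨m, hm⟩ := mem_iUnion.mp hV
      exact ⟨m, V, hm, fun i => h3 _ ⟨i, rfl⟩⟩
  obtain ⟨E, hE, h2⟩ := key
  choose! c hc1 hc2 using fun m V (hV : V ∈ E m) => ((hE m).2 hV).2
  refine ⟨fun m j => (fun V => c m V j) '' E m, fun m j =>
    ⟨(encard_image_le _ _).trans_lt (hE m).1, ?_⟩, fun z hz => ?_⟩
  · rintro _ ⟨V, hV, rfl⟩; exact hc1 m V hV j
  · rw [mem_closure_iff]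
    intro O hO hzO
    obtain ⟨G, hG, hGs⟩ := box_sub O hO z hzO
    obtain ⟨m, V, hV, h3⟩ := h2 (fun i => G i ∩ A i)
      (fun i => ⟨(hG i).1.inter (hA.1 i).1, z i, (hG i).2, hz i (mem_univ _)⟩)
    choose y hy1 hy2 using h3
    obtain ⟨j, hj⟩ := mem_iUnion.mp (hc2 m V hV (fun i _ => ⟨hy1 i, (hy2 i).2⟩ :
      y ∈ Set.univ.pi (fun i => V ∩ A i)))
    exact ⟨y, hGs fun i _ => (hy2 i).1, _,
      mem_iUnion.mpr ⟨m, mem_iUnion.mpr ⟨j, V, hV, rfl⟩⟩, hj⟩

lemma pow_DD {κ : ℕ∞} (hκ : 1 < κ) {X ι : Type} [TopologicalSpace X] [Fintype ι]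
    (h : SS κ (DO X) (DO X)) (hc : CCC (ι → X)) : SS κ (DD (ι → X)) (DD (ι → X)) := by
  intro U hU
  obtain ⟨T, hT, hTc, hTd⟩ := ccc_dense hc {A : ι → Set X | Good A} (fun A => Set.univ.pi A)
    (fun A hA => isOpen_set_pi finite_univ (fun i _ => (hA.1 i).1))
  have hd : Dense (⋃ A ∈ T, Set.univ.pi A) := by
    rw [dense_iff_inter_open]
    rintro O hO ⟨z, hz⟩
    obtain ⟨G, hG, hGs⟩ := box_sub O hO z hz
    obtain ⟨A, hA, hAG⟩ := good_sub G (fun i => ⟨(hG i).1, _, (hG i).2⟩)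
    choose y hy using fun i => (hA.1 i).2
    exact mem_closure_iff.mp (hTd A hA (fun i _ => hy i)) O hO (hGs fun i _ => hAG i (hy i))
  rcases T.eq_empty_or_nonempty with rfl | hne
  · refine ⟨fun _ => ∅, fun _ => ⟨by simpa using zero_lt_one.trans hκ, empty_subset _⟩, by simp,
      by simpa using hd⟩
  obtain ⟨g, rfl⟩ := hTc.exists_eq_range hne
  choose F hF1 hF2 using fun l => box_sel hκ h (g l) (hT ⟨l, rfl⟩)
    (fun m j => U (Nat.pair l (Nat.pair m j))) (fun m j => hU _)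
  have hF : ∀ n, (F n.unpair.1 n.unpair.2.unpair.1 n.unpair.2.unpair.2).encard < κ ∧
      F n.unpair.1 n.unpair.2.unpair.1 n.unpair.2.unpair.2 ⊆ U n := by
    intro n
    simpa [Nat.pair_unpair] using hF1 n.unpair.1 n.unpair.2.unpair.1 n.unpair.2.unpair.2
  refine ⟨_, hF, fun V hV => ?_, ?_⟩
  · obtain ⟨n, hn⟩ := mem_iUnion.mp hV
    exact (hU n).1 V ((hF n).2 hn)
  · apply Dense.of_closure
    apply hd.mono
    intro z hz
    obtain ⟨_, ⟨l, rfl⟩, hz⟩ := mem_iUnion₂.mp hz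
    refine closure_mono (sUnion_subset_sUnion fun V hV => ?_) (hF2 l hz)
    simp only [mem_iUnion] at hV ⊢
    obtain ⟨m, j, hV⟩ := hV
    exact ⟨Nat.pair l (Nat.pair m j), by simpa [Nat.unpair_pair] using hV⟩

def PW {Y : Type} (m : ℕ) (U : Set Y) : Set (Fin m → Y) := Set.univ.pi fun _ => U

lemma DO_of_pow {κ : ℕ∞} {Y : Type} [TopologicalSpace Y]
    (h : ∀ m, SS κ (DD (Fin m → Y)) (DD (Fin m → Y))) : SS κ (DO Y) (DO Y) := by
  intro U hU
  have h1 : ∀ m n, PW m '' U n ∈ DD (Fin m → Y) := by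
    intro m n
    refine ⟨?_, dense_iff_inter_open.mpr ?_⟩
    · rintro _ ⟨V, hV, rfl⟩
      exact isOpen_set_pi finite_univ (fun _ _ => (hU n).1.1 V hV)
    · rintro O hO ⟨z, hz⟩
      obtain ⟨G, hG, hGs⟩ := box_sub O hO z hz
      obtain ⟨V, hV, h2⟩ := (hU n).2.2 (range G) (finite_range G)
        (by rintro _ ⟨i, rfl⟩; exact ⟨(hG i).1, _, (hG i).2⟩)
      choose y hy1 hy2 using fun i => h2 _ ⟨i, rfl⟩
      exact ⟨y, hGs fun i _ => hy2 i, _, ⟨V, hV, rfl⟩, fun i _ => hy1 i⟩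
  choose E hE hEd using fun m => h m (fun j => PW m '' U (Nat.pair m j)) (fun j => h1 m _)
  choose! g hg1 hg2 using fun m j V (hV : V ∈ E m j) => (hE m j).2 hV
  have hF : ∀ n : ℕ, (g n.unpair.1 n.unpair.2 '' E n.unpair.1 n.unpair.2).encard < κ ∧
      g n.unpair.1 n.unpair.2 '' E n.unpair.1 n.unpair.2 ⊆ U n := by
    intro n
    refine ⟨(encard_image_le _ _).trans_lt (hE _ _).1, ?_⟩
    rintro _ ⟨V, hV, rfl⟩
    simpa [Nat.pair_unpair] using hg1 _ _ V hV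
  refine ⟨_, hF, DO_of _ (fun V hV => ?_) (fun V hV => ?_) (fun F hF1 hF2 => ?_)⟩
  · obtain ⟨n, hn⟩ := mem_iUnion.mp hV
    exact (hU n).1.1 V ((hF n).2 hn)
  · obtain ⟨n, hn⟩ := mem_iUnion.mp hV
    exact (hU n).2.1 V ((hF n).2 hn)
  · obtain ⟨m, e, -, he⟩ := hF1.fin_param
    subst he
    obtain ⟨y, hy1, V, hV, hy2⟩ := (hEd m).2.inter_open_nonempty (Set.univ.pi e)
      (isOpen_set_pi finite_univ fun i _ => (hF2 _ ⟨i, rfl⟩).1)
      (univ_pi_nonempty_iff.mpr fun i => (hF2 _ ⟨i, rfl⟩).2)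
    obtain ⟨j, hj⟩ := mem_iUnion.mp hV
    refine ⟨g m j V, mem_iUnion.mpr ⟨Nat.pair m j, ?_⟩, ?_⟩
    · rw [Nat.unpair_pair]; exact ⟨V, hj, rfl⟩
    · rintro _ ⟨i, rfl⟩
      rw [← hg2 m j V hj] at hy2
      exact ⟨y i, hy2 i (mem_univ _), hy1 i (mem_univ _)⟩

lemma SS.homeo {κ : ℕ∞} {X Y : Type} [TopologicalSpace X] [TopologicalSpace Y] (e : X ≃ₜ Y)
    (h : SS κ (DD X) (DD X)) : SS κ (DD Y) (DD Y) := by
  intro U hU
  obtain ⟨F, hF, h2⟩ := h (fun n => preimage e '' U n) (fun n => ⟨by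
    rintro _ ⟨V, hV, rfl⟩; exact ((hU n).1 V hV).preimage e.continuous, by
    rw [sUnion_image, ← preimage_iUnion₂, ← sUnion_eq_biUnion]
    exact (hU n).2.preimage e.isOpenMap⟩)
  have hF' : ∀ n, preimage e.symm '' F n ⊆ U n := by
    rintro n _ ⟨V, hV, rfl⟩
    obtain ⟨W, hW, rfl⟩ := (hF n).2 hV
    simpa [← preimage_comp] using hW
  refine ⟨fun n => preimage e.symm '' F n, fun n =>
    ⟨(encard_image_le _ _).trans_lt (hF n).1, hF' n⟩, fun V hV => ?_, ?_⟩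
  · obtain ⟨n, hn⟩ := mem_iUnion.mp hV
    exact (hU n).1 V (hF' n hn)
  · rw [← image_iUnion, sUnion_image, ← preimage_iUnion₂, ← sUnion_eq_biUnion]
    exact h2.2.preimage e.symm.isOpenMap

lemma ccc_fintype {X : Type} [TopologicalSpace X] (h : ∀ k, CCC (Fin k → X)) (ι : Type)
    [Fintype ι] : CCC (ι → X) :=
  (h (Fintype.card ι)).image (fun z i => z (Fintype.equivFin ι i)) (by fun_prop)
    (fun y => ⟨fun j => y ((Fintype.equivFin ι).symm j), by ext i; simp⟩)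

lemma main_iff {κ : ℕ∞} (hκ : 1 < κ) {X : Type} [TopologicalSpace X]
    (h : SS κ (DO X) (DO X)) :
    (∀ k, SS κ (DO (Fin k → X)) (DO (Fin k → X))) ↔ ∀ k, CCC (Fin k → X) := by
  refine ⟨fun h1 k => ccc_of_SS (h1 k), fun h1 k => DO_of_pow fun m => ?_⟩
  exact SS.homeo (Homeomorph.piCurry (X := Fin m) (Y := Fin k) (Z := X))
    (pow_DD hκ h (ccc_fintype h1 _))

def II : Type := (Order.succ ℵ₀ : Cardinal.{0}).ord.ToType

noncomputable instance : LinearOrder II :=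
  inferInstanceAs (LinearOrder (Order.succ ℵ₀ : Cardinal.{0}).ord.ToType)
instance : WellFoundedLT II :=
  inferInstanceAs (WellFoundedLT (Order.succ ℵ₀ : Cardinal.{0}).ord.ToType)

lemma bdd_gen (c : Cardinal.{0}) (hc : c.IsRegular) (S : Set c.ord.ToType) (h : #S < c) :
    ∃ b, ∀ s ∈ S, s < b := by
  rw [← not_isCofinal_iff]
  intro hS
  have h1 := Order.cof_le hS
  rw [Ordinal.cof_toType, hc.cof_ord] at h1
  exact absurd h (not_lt.mpr h1)

lemma iio_gen (c : Cardinal.{0}) (i : c.ord.ToType) : #(Iio i) < c := by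
  simpa using Cardinal.mk_Iio_lt i

lemma card_II : #II = Order.succ ℵ₀ := by
  unfold II; simp

lemma bddI (C : Set II) (hC : C.Countable) : ∃ i, ∀ c ∈ C, c < i := by
  apply bdd_gen _ (Cardinal.isRegular_succ le_rfl) C
  rw [← Cardinal.le_aleph0_iff_set_countable] at hC
  exact Order.lt_succ_iff.mpr hC

lemma cIio (i : II) : (Iio i).Countable := by
  rw [← Cardinal.le_aleph0_iff_set_countable]
  exact Order.lt_succ_iff.mp (iio_gen _ i)

lemma knaster (hMA : MA1) {X : Type} [TopologicalSpace X] (hc : CCC X) (U : II → Set X)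
    (hU : ∀ a, IsOpen (U a) ∧ (U a).Nonempty) (T : Set II) (hT : ¬ T.Countable) :
    ∃ T' ⊆ T, ¬ T'.Countable ∧ ∀ a ∈ T', ∀ b ∈ T', (U a ∩ U b).Nonempty := by
  obtain ⟨T0, h1, h2, h3⟩ := ccc_dense hc
    {V : Set X | IsOpen V ∧ {b ∈ T | (V ∩ U b).Nonempty}.Countable} id (fun V hV => hV.1)
  obtain ⟨b0, hb0, hb1⟩ : ∃ b ∈ T, b ∉ ⋃ V ∈ T0, {b ∈ T | (V ∩ U b).Nonempty} := by
    by_contra hh
    push Not at hh
    exact hT ((h2.biUnion (fun V hV => (h1 hV).2)).mono hh)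
  have hW : ∀ V : Set X, IsOpen V → V.Nonempty → V ⊆ U b0 →
      ¬ {b ∈ T | (V ∩ U b).Nonempty}.Countable := by
    rintro V hV ⟨x, hx⟩ hVU hcn
    obtain ⟨y, hy1, hy2⟩ := mem_closure_iff.mp (h3 V ⟨hV, hcn⟩ hx) _ (hU b0).1 (hVU hx)
    obtain ⟨V', hV', hy3⟩ := mem_iUnion₂.mp hy2
    exact hb1 (mem_biUnion hV' ⟨hb0, y, hy3, hy1⟩)
  let P := {V : Set X // IsOpen V ∧ V.Nonempty ∧ V ⊆ U b0}
  let D : II → Set P := fun a => {p | ∃ b ∈ T, a ≤ b ∧ p.1 ⊆ U b}
  obtain ⟨G, -, hG2, hG3⟩ := hMA P ⟨⟨U b0, (hU b0).1, (hU b0).2, Subset.rfl⟩⟩ (by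
    intro A hA
    refine countable_of_injective_of_countable_image Subtype.val_injective.injOn (hc _ ?_ ?_)
    · rintro _ ⟨p, -, rfl⟩; exact ⟨p.2.1, p.2.2.1⟩
    · rintro _ ⟨p, hp, rfl⟩ _ ⟨q, hq, rfl⟩ hne
      by_contra hd
      exact hA hp hq (fun h => hne (by rw [h])) ⟨⟨p.1 ∩ q.1, p.2.1.inter q.2.1,
        not_disjoint_iff_nonempty_inter.mp hd, inter_subset_left.trans p.2.2.2⟩,
        inter_subset_left, inter_subset_right⟩) (range D) (by
    refine Cardinal.mk_range_le.trans ?_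
    rw [card_II, Cardinal.succ_aleph0]) (by
    rintro _ ⟨a, rfl⟩ p
    obtain ⟨b, ⟨hb, hne⟩, hab⟩ : ∃ b ∈ {b ∈ T | (p.1 ∩ U b).Nonempty}, a ≤ b := by
      by_contra hh
      push Not at hh
      exact hW p.1 p.2.1 p.2.2.1 p.2.2.2 ((cIio a).mono hh)
    exact ⟨⟨p.1 ∩ U b, p.2.1.inter (hU b).1, hne, inter_subset_left.trans p.2.2.2⟩,
      ⟨b, hb, hab, inter_subset_right⟩, inter_subset_left⟩)
  refine ⟨{b ∈ T | ∃ p ∈ G, p.1 ⊆ U b}, fun b hb => hb.1, fun hcn => ?_, ?_⟩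
  · obtain ⟨a, ha⟩ := bddI _ hcn
    obtain ⟨p, hp, b, hb, hab, hpb⟩ := hG3 _ ⟨a, rfl⟩
    exact absurd (ha b ⟨hb, p, hp, hpb⟩) (not_lt.mpr hab)
  · rintro a ⟨-, p, hp, hpa⟩ b ⟨-, q, hq, hqb⟩
    obtain ⟨r, -, hrp, hrq⟩ := hG2 p hp q hq
    obtain ⟨x, hx⟩ := r.2.2.1
    exact ⟨x, hpa (hrp hx), hqb (hrq hx)⟩

lemma ccc_pow (hMA : MA1) {X : Type} [TopologicalSpace X] (hc : CCC X) (k : ℕ) :
    CCC (Fin k → X) := by
  classical
  intro S hS hd
  by_contra hn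
  have h1 : #II ≤ #S := by
    rw [card_II, Order.succ_le_iff, ← not_le, Cardinal.le_aleph0_iff_set_countable]
    exact hn
  obtain ⟨e⟩ := h1
  choose z hz using fun a => (hS _ (e a).2).2
  choose G hG hGs using fun a => box_sub _ (hS _ (e a).2).1 _ (hz a)
  have key : ∀ s : Finset (Fin k), ∃ T : Set II, ¬ T.Countable ∧
      ∀ i ∈ s, ∀ a ∈ T, ∀ b ∈ T, (G a i ∩ G b i).Nonempty := by
    intro s
    induction s using Finset.induction_on with
    | empty =>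
      refine ⟨Set.univ, fun h => ?_, by simp⟩
      obtain ⟨a, ha⟩ := bddI _ h
      exact lt_irrefl _ (ha a (mem_univ _))
    | insert j s _ ih =>
      obtain ⟨T, hT, h2⟩ := ih
      obtain ⟨T', h3, h4, h5⟩ := knaster hMA hc (fun a => G a j)
        (fun a => ⟨(hG a j).1, _, (hG a j).2⟩) T hT
      refine ⟨T', h4, fun i hi a ha b hb => ?_⟩
      rcases Finset.mem_insert.mp hi with rfl | hi
      · exact h5 a ha b hb
      · exact h2 i hi a (h3 ha) b (h3 hb)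
  obtain ⟨T, hT, h2⟩ := key Finset.univ
  obtain ⟨a, ha, b, hb, hab⟩ : T.Nontrivial := by
    by_contra hh
    exact hT (not_nontrivial_iff.mp hh).countable
  choose y hy1 hy2 using fun i => h2 i (Finset.mem_univ _) a ha b hb
  exact Set.disjoint_left.mp (hd (e a).2 (e b).2
    (fun h => hab (e.injective (Subtype.ext h)))) (hGs a fun i _ => hy1 i) (hGs b fun i _ => hy2 i)

lemma bddO {α : Type} (C : Set α) (hC : C.Countable) (f : α → Ordinal.{0})
    (hf : ∀ c ∈ C, f c < ω₁) : ∃ γ < ω₁, ∀ c ∈ C, f c < γ := by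
  haveI := hC.to_subtype
  refine ⟨Order.succ (⨆ c : C, f c), (isSuccLimit_omega 1).succ_lt
    (Ordinal.iSup_lt_omega_one fun c => hf c c.2), fun c hc => Order.lt_succ_of_le ?_⟩
  exact Ordinal.le_iSup (fun c : C => f c) ⟨c, hc⟩

section tree
variable {T : Type} [PartialOrder T] {ht : T → Ordinal.{0}}

def Br (T : Type) [PartialOrder T] : Type := Flag T

def cone (t : T) : Set (Br T) := {b | t ∈ (show Flag T from b)}

instance : TopologicalSpace (Br T) := TopologicalSpace.generateFrom (range cone)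

lemma cone_open (t : T) : IsOpen (cone t) :=
  TopologicalSpace.isOpen_generateFrom_of_mem ⟨t, rfl⟩

lemma cone_ne (t : T) : (cone t).Nonempty := Flag.exists_mem t

lemma FreeSuslin.le_of (h : FreeSuslin T ht) {a b c : T} (ha : a ≤ c) (hb : b ≤ c)
    (hab : ht a ≤ ht b) : a ≤ b := by
  by_cases he : a = b
  · exact he.le
  rcases h.tree c ha hb he with h1 | h1
  · exact h1
  · exact absurd (h.mono (lt_of_le_of_ne h1 (Ne.symm he))) (not_lt.mpr hab)

lemma FreeSuslin.cone_anti (h : FreeSuslin T ht) {s t : T} (hst : s ≤ t) : cone t ⊆ cone s := by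
  intro b hb
  have hb' : t ∈ (show Flag T from b) := hb
  show s ∈ (show Flag T from b)
  rw [Flag.mem_iff_forall_le_or_ge]
  intro u hu
  rcases (show Flag T from b).le_or_le hu hb' with h1 | h1
  · rcases le_total (ht s) (ht u) with h2 | h2
    · exact Or.inl (h.le_of hst h1 h2)
    · exact Or.inr (h.le_of h1 hst h2)
  · exact Or.inl (hst.trans h1)

lemma FreeSuslin.basis (h : FreeSuslin T ht) :
    TopologicalSpace.IsTopologicalBasis (range (cone : T → Set (Br T))) := by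
  refine ⟨?_, ?_, rfl⟩
  · rintro _ ⟨s, rfl⟩ _ ⟨t, rfl⟩ b ⟨hs, ht'⟩
    rcases (show Flag T from b).le_or_le hs ht' with h1 | h1
    · exact ⟨_, ⟨t, rfl⟩, ht', subset_inter (h.cone_anti h1) Subset.rfl⟩
    · exact ⟨_, ⟨s, rfl⟩, hs, subset_inter Subset.rfl (h.cone_anti h1)⟩
  · apply eq_univ_of_forall
    intro b
    haveI := h.ne
    obtain ⟨t, ht'⟩ := (show Flag T from b).maxChain.nonempty_iff.mp h.ne
    exact ⟨_, ⟨t, rfl⟩, ht'⟩

lemma cone_closed (t : T) : IsClosed (cone t) := by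
  rw [← isOpen_compl_iff, isOpen_iff_forall_mem_open]
  intro b hb
  have hb' : ¬ t ∈ (show Flag T from b) := hb
  rw [Flag.mem_iff_forall_le_or_ge] at hb'
  push Not at hb'
  obtain ⟨u, hu, h1, h2⟩ := hb'
  refine ⟨cone u, fun c hc hc2 => ?_, cone_open u, hu⟩
  rcases (show Flag T from c).le_or_le hc hc2 with h3 | h3
  exacts [h2 h3, h1 h3]

lemma FreeSuslin.t35 (h : FreeSuslin T ht) : T35Space (Br T) := by
  haveI : T0Space (Br T) := by
    constructor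
    intro b c hbc
    apply Flag.ext
    ext t
    exact hbc.mem_open_iff (cone_open t)
  haveI : CompletelyRegularSpace (Br T) := by
    constructor
    intro x K hK hx
    classical
    obtain ⟨_, ⟨t, rfl⟩, h1, h2⟩ := h.basis.exists_subset_of_mem_open hx hK.isOpen_compl
    refine ⟨fun b => if b ∈ cone t then 0 else 1, ?_, by simp [h1], fun b hb => ?_⟩
    · exact (IsLocallyConstant.continuous (fun s => by
        by_cases h0 : (0 : unitInterval) ∈ s <;> by_cases h1 : (1 : unitInterval) ∈ s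
        · convert isOpen_univ (X := Br T); ext b; by_cases hb : b ∈ cone t <;> simp [*]
        · convert cone_open t; ext b; by_cases hb : b ∈ cone t <;> simp [*]
        · convert (cone_closed t).isOpen_compl; ext b; by_cases hb : b ∈ cone t <;> simp [*]
        · convert isOpen_empty (X := Br T); ext b; by_cases hb : b ∈ cone t <;> simp [*]))
    · have : b ∉ cone t := fun h3 => h2 h3 hb
      simp [this]
  exact {}

lemma FreeSuslin.sub_cone (h : FreeSuslin T ht) {O : Set (Br T)} (hO : IsOpen O)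
    (hne : O.Nonempty) : ∃ t, cone t ⊆ O := by
  obtain ⟨b, hb⟩ := hne
  obtain ⟨_, ⟨t, rfl⟩, -, h2⟩ := h.basis.exists_subset_of_mem_open hb hO
  exact ⟨t, h2⟩

lemma FreeSuslin.level (h : FreeSuslin T ht) (β : Ordinal) : {t | ht t = β}.Countable := by
  apply h.anti
  intro a ha b hb hab hle
  have h1 : ht a = β := ha
  have h2 : ht b = β := hb
  exact absurd (h.mono (lt_of_le_of_ne hle hab)) (by rw [h1, h2]; exact lt_irrefl _)

/-- tuples covered by a member of the family -/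
def Cov (U : Set (Set (Br T))) {r : ℕ} (v : Fin r → T) : Prop := ∃ V ∈ U, ∀ i, cone (v i) ⊆ V

lemma FreeSuslin.cov_mono (h : FreeSuslin T ht) {U : Set (Set (Br T))} {r : ℕ} {v w : Fin r → T}
    (hv : Cov U v) (hvw : v ≤ w) : Cov U w :=
  let ⟨V, hV, h1⟩ := hv; ⟨V, hV, fun i => (h.cone_anti (hvw i)).trans (h1 i)⟩

lemma FreeSuslin.raise (h : FreeSuslin T ht) {r : ℕ} (v : Fin r → T) (β : Ordinal) (hβ : β < ω₁) :
    ∃ γ, β ≤ γ ∧ γ < ω₁ ∧ ∃ w : Fin r → T, v ≤ w ∧ ∀ i, ht (w i) = γ := by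
  obtain ⟨γ, h1, h2⟩ := bddO Set.univ countable_univ (fun i => ht (v i)) (fun i _ => h.lt _)
  choose w hw1 hw2 using fun i => h.up (v i) (max β γ)
    ((h2 i (mem_univ _)).le.trans (le_max_right _ _)) (max_lt hβ h1)
  exact ⟨max β γ, le_max_left _ _, max_lt hβ h1, w, hw1, hw2⟩

lemma FreeSuslin.cov_dense (h : FreeSuslin T ht) {U : Set (Set (Br T))} (hU : U ∈ DO (Br T))
    {r : ℕ} (v : Fin r → T) : ∃ w, v ≤ w ∧ Cov U w := by
  obtain ⟨V, hV, h1⟩ := hU.2.2 (range fun i => cone (v i)) (finite_range _)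
    (by rintro _ ⟨i, rfl⟩; exact ⟨cone_open _, cone_ne _⟩)
  have h2 : ∀ i, ∃ w, v i ≤ w ∧ cone w ⊆ V := by
    intro i
    obtain ⟨t, ht'⟩ := h.sub_cone ((hU.1.1 V hV).inter (cone_open (v i))) (h1 _ ⟨i, rfl⟩)
    obtain ⟨b, hb⟩ := cone_ne t
    rcases (show Flag T from b).le_or_le hb (ht' hb).2 with h3 | h3
    · exact ⟨v i, le_rfl, (h.cone_anti h3).trans (ht'.trans inter_subset_left)⟩
    · exact ⟨t, h3, ht'.trans inter_subset_left⟩
  choose w hw1 hw2 using h2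
  exact ⟨w, hw1, V, hV, hw2⟩

lemma FreeSuslin.derived (h : FreeSuslin T ht) {U : Set (Set (Br T))} (hU : U ∈ DO (Br T))
    {r : ℕ} (u : Fin r → T) (hu : Function.Injective u) (hu2 : ∀ i j, ht (u i) = ht (u j)) :
    ∃ γ < ω₁, ∀ β, γ ≤ β → ∀ v : Fin r → T, u ≤ v → (∀ i, ht (v i) = β) → Cov U v := by
  let E : Set (Fin r → T) := {v | (u ≤ v ∧ ∀ i j, ht (v i) = ht (v j)) ∧ Cov U v}
  have hM : {v | Minimal (· ∈ E) v}.Countable := h.free r u hu hu2 _ (fun v hv => hv.1.1)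
    (fun a ha b hb hab hle => hab (le_antisymm hle (hb.2 ha.1 hle)))
  obtain ⟨γ, h1, h2⟩ := bddO ({v | Minimal (· ∈ E) v} ×ˢ (Set.univ : Set (Fin r)))
    (hM.prod countable_univ) (fun p => ht (p.1 p.2)) (fun _ _ => h.lt _)
  refine ⟨γ, h1, fun β hβ v huv hv => ?_⟩
  obtain ⟨w, hvw, hw⟩ := h.cov_dense hU v
  obtain ⟨δ, -, -, w', hww, hw'⟩ := h.raise w 0 (isSuccLimit_omega 1).pos
  haveI : WellFoundedLT T := h.mono.wellFoundedLT
  have hE : w' ∈ E := ⟨⟨huv.trans (hvw.trans hww), fun i j => by rw [hw', hw']⟩,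
    h.cov_mono hw hww⟩
  obtain ⟨m, hm1, hm2⟩ := exists_minimal_le_of_wellFoundedLT (· ∈ E) w' hE
  refine h.cov_mono hm2.1.2 fun i => h.le_of (hm1 i) ((hvw.trans hww) i) ?_
  rw [hv i]
  exact (h2 (m, i) ⟨hm2, mem_univ _⟩).le.trans hβ

lemma FreeSuslin.good_level (h : FreeSuslin T ht) {U : Set (Set (Br T))} (hU : U ∈ DO (Br T))
    (r : ℕ) : ∃ γ < ω₁, ∀ β, γ ≤ β → ∀ v : Fin r → T, (∀ i, ht (v i) = β) → Cov U v := by
  induction r with
  | zero =>
    obtain ⟨V, hV, -⟩ := hU.2.2 ∅ finite_empty (by simp)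
    exact ⟨0, (isSuccLimit_omega 1).pos, fun _ _ v _ => ⟨V, hV, fun i => i.elim0⟩⟩
  | succ r ih =>
    obtain ⟨γ, h1, h2⟩ := ih
    let L : Set (Fin (r + 1) → T) := {u | (∀ i, ht (u i) = γ) ∧ Function.Injective u}
    have hL : L.Countable := by
      refine Set.Countable.mono ?_ (countable_univ_pi (fun _ : Fin (r + 1) => h.level γ))
      intro u hu i _
      exact hu.1 i
    choose! g hg1 hg2 using fun u (hu : u ∈ L) => h.derived hU u hu.2
      (fun i j => by rw [hu.1, hu.1])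
    obtain ⟨δ, h3, h4⟩ := bddO L hL g hg1
    refine ⟨max γ δ, max_lt h1 h3, fun β hβ v hv => ?_⟩
    choose u hu1 hu2 using fun i => h.down (v i) γ (by rw [hv]; exact (le_max_left _ _).trans hβ)
    by_cases hi : Function.Injective u
    · exact hg2 u ⟨hu2, hi⟩ β ((h4 u ⟨hu2, hi⟩).le.trans ((le_max_right _ _).trans hβ)) v hu1 hv
    · simp only [Function.Injective, not_forall] at hi
      obtain ⟨a, b, hab, hne⟩ := hi
      obtain ⟨V, hV, h5⟩ := h2 γ le_rfl (fun i => u (a.succAbove i)) (fun i => hu2 _)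
      refine h.cov_mono (v := u) ⟨V, hV, fun i => ?_⟩ hu1
      by_cases hia : i = a
      · obtain ⟨j, hj⟩ := Fin.exists_succAbove_eq (Ne.symm hne)
        rw [hia, hab, ← hj]; exact h5 j
      · obtain ⟨j, hj⟩ := Fin.exists_succAbove_eq hia
        rw [← hj]; exact h5 j

lemma FreeSuslin.s1 (h : FreeSuslin T ht) : S1 (DO (Br T)) (DO (Br T)) := by
  intro U hU
  choose g hg1 hg2 using fun p : ℕ × ℕ => h.good_level (hU p.1) p.2
  obtain ⟨δ, h1, h2⟩ := bddO Set.univ countable_univ g (fun p _ => hg1 p)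
  haveI := (h.level δ).to_subtype
  haveI : Nonempty (Σ r : ℕ, Fin r → {t | ht t = δ}) := ⟨⟨0, fun i => i.elim0⟩⟩
  obtain ⟨e, he⟩ := exists_surjective_nat (Σ r : ℕ, Fin r → {t | ht t = δ})
  choose V hV1 hV2 using fun n => hg2 (n, (e n).1) δ (h2 _ (mem_univ _)).le
    (fun i => ((e n).2 i).1) (fun i => ((e n).2 i).2)
  refine ⟨V, hV1, DO_of _ ?_ ?_ fun F hF hF2 => ?_⟩
  · rintro _ ⟨n, rfl⟩; exact (hU n).1.1 _ (hV1 n)
  · rintro _ ⟨n, rfl⟩; exact (hU n).2.1 _ (hV1 n)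
  · obtain ⟨m, f, -, rfl⟩ := hF.fin_param
    choose t ht' using fun i => h.sub_cone (hF2 _ ⟨i, rfl⟩).1 (hF2 _ ⟨i, rfl⟩).2
    obtain ⟨γ, h3, -, w, hw1, hw2⟩ := h.raise t δ h1
    choose u hu1 hu2 using fun i => h.down (w i) δ (by rw [hw2]; exact h3)
    obtain ⟨n, hn⟩ := he ⟨m, fun i => ⟨u i, hu2 i⟩⟩
    refine ⟨V n, ⟨n, rfl⟩, ?_⟩
    rintro _ ⟨i, rfl⟩
    obtain ⟨b, hb⟩ := cone_ne (w i)
    have h4 := hV2 n
    rw [hn] at h4
    exact ⟨b, h4 i (h.cone_anti (hu1 i) hb), ht' i (h.cone_anti (hw1 i) hb)⟩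

lemma FreeSuslin.split (h : FreeSuslin T ht) (t : T) :
    ∃ a b, t ≤ a ∧ t ≤ b ∧ ¬ a ≤ b ∧ ¬ b ≤ a := by
  by_contra hh
  push Not at hh
  have h1 : (Ici t).Countable := h.chain _ fun a ha b hb _ => by
    by_cases h2 : a ≤ b
    exacts [Or.inl h2, Or.inr (hh a b ha hb h2)]
  obtain ⟨γ, h2, h3⟩ := bddO _ h1 ht (fun _ _ => h.lt _)
  obtain ⟨s, hs1, hs2⟩ := h.up t γ (h3 t le_rfl).le h2
  exact absurd (h3 s hs1) (by rw [hs2]; exact lt_irrefl _)

lemma FreeSuslin.not_ccc (h : FreeSuslin T ht) : ¬ CCC (Fin 2 → Br T) := by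
  intro hc
  let I : Set (T × T) := {p | ¬ p.1 ≤ p.2 ∧ ¬ p.2 ≤ p.1}
  let W : T × T → Set (Fin 2 → Br T) := fun p => Set.univ.pi ![cone p.1, cone p.2]
  have hW : ∀ p, IsOpen (W p) := fun p => isOpen_set_pi finite_univ (fun i _ => by
    fin_cases i <;> exact cone_open _)
  obtain ⟨S, h1, h2, h3⟩ := ccc_dense hc I W (fun p _ => hW p)
  obtain ⟨γ, h4, h5⟩ := bddO S h2 (fun p => max (ht p.1) (ht p.2))
    (fun p _ => max_lt (h.lt _) (h.lt _))
  obtain ⟨t0⟩ := h.ne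
  obtain ⟨t, -, ht'⟩ := h.up t0 (max γ (ht t0)) (le_max_right _ _) (max_lt h4 (h.lt _))
  obtain ⟨a, b, ha, hb, hab⟩ := h.split t
  obtain ⟨x, hx⟩ := cone_ne a
  obtain ⟨y, hy⟩ := cone_ne b
  have h6 : ![x, y] ∈ W (a, b) := fun i _ => by fin_cases i <;> assumption
  obtain ⟨z, hz1, hz2⟩ := mem_closure_iff.mp (h3 (a, b) hab h6) _ (hW _) h6
  obtain ⟨p, hp, hz3⟩ := mem_iUnion₂.mp hz2
  have key : ∀ (c : Br T) (s : T), c ∈ cone t → c ∈ cone s → ht s < γ → s ≤ t := by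
    intro c s h7 h8 h9
    rcases (show Flag T from c).le_or_le h8 h7 with h10 | h10
    · exact h10
    · exact absurd (h9.trans_le ((le_max_left _ _).trans ht'.ge)) (not_lt.mpr (h.mono.monotone h10))
  have k1 := key (z 0) p.1 (h.cone_anti ha (hz1 0 (mem_univ _))) (hz3 0 (mem_univ _))
    ((le_max_left _ _).trans_lt (h5 p hp))
  have k2 := key (z 1) p.2 (h.cone_anti hb (hz1 1 (mem_univ _))) (hz3 1 (mem_univ _))
    ((le_max_right _ _).trans_lt (h5 p hp))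
  rcases le_total (ht p.1) (ht p.2) with h7 | h7
  exacts [(h1 hp).1 (h.le_of k1 k2 h7), (h1 hp).2 (h.le_of k2 k1 h7)]

end tree

/-- (1), (2): in ZFC, a space with S_1 (S_fin) (D_Omega, D_Omega) has it in all finite powers iff
all finite powers are ccc. (3): under MA(aleph_1) both properties are preserved by finite powers.
(4): a free Suslin tree gives a Tychonoff space with both properties whose square has neither. -/
theorem result :
    (∀ (X : Type) [TopologicalSpace X], S1 (DO X) (DO X) →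
      ((∀ k, S1 (DO (Fin k → X)) (DO (Fin k → X))) ↔ ∀ k, CCC (Fin k → X))) ∧
    (∀ (X : Type) [TopologicalSpace X], Sfin (DO X) (DO X) →
      ((∀ k, Sfin (DO (Fin k → X)) (DO (Fin k → X))) ↔ ∀ k, CCC (Fin k → X))) ∧
    (MA1 → ∀ (X : Type) [TopologicalSpace X],
      (S1 (DO X) (DO X) → ∀ k, S1 (DO (Fin k → X)) (DO (Fin k → X))) ∧
      (Sfin (DO X) (DO X) → ∀ k, Sfin (DO (Fin k → X)) (DO (Fin k → X)))) ∧
    (∀ (T : Type) [PartialOrder T] (ht : T → Ordinal.{0}), FreeSuslin T ht →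
      ∃ (X : Type) (_ : TopologicalSpace X), T35Space X ∧
        S1 (DO X) (DO X) ∧ Sfin (DO X) (DO X) ∧
        ¬ S1 (DO (Fin 2 → X)) (DO (Fin 2 → X)) ∧ ¬ Sfin (DO (Fin 2 → X)) (DO (Fin 2 → X))) := by
  have a1 : ∀ (X : Type) [TopologicalSpace X], S1 (DO X) (DO X) →
      ((∀ k, S1 (DO (Fin k → X)) (DO (Fin k → X))) ↔ ∀ k, CCC (Fin k → X)) := by
    intro X _ h
    simp only [s1_iff] at h ⊢
    exact main_iff (by norm_num) h
  have a2 : ∀ (X : Type) [TopologicalSpace X], Sfin (DO X) (DO X) →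
      ((∀ k, Sfin (DO (Fin k → X)) (DO (Fin k → X))) ↔ ∀ k, CCC (Fin k → X)) := by
    intro X _ h
    simp only [sfin_iff] at h ⊢
    exact main_iff (by norm_num) h
  refine ⟨a1, a2, fun hMA X _ => ⟨fun h => (a1 X h).mpr (ccc_pow hMA (ccc_of_SS (s1_iff.mp h))),
    fun h => (a2 X h).mpr (ccc_pow hMA (ccc_of_SS ((sfin_iff _ _).mp h)))⟩, ?_⟩
  intro T _ ht h
  refine ⟨Br T, inferInstance, h.t35, h.s1, ?_, fun h1 => h.not_ccc (ccc_of_SS (s1_iff.mp h1)),
    fun h1 => h.not_ccc (ccc_of_SS ((sfin_iff _ _).mp h1))⟩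
  rw [sfin_iff]
  intro U hU
  obtain ⟨F, hF, h2⟩ := s1_iff.mp h.s1 U hU
  exact ⟨F, fun n => ⟨(hF n).1.trans_le le_top, (hF n).2⟩, h2⟩

end Pool.Agent.Results.MP_9098dd_gt.DensePowers
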